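import Pool.Agent.U514.TG.Stm

/-!
# Project TG, package ALG: the algorithm
-/

set_option autoImplicit false

namespace Pool.Agent.U913.TG

open Finset
open Pool.Agent.U514.SP (IsAlg nnz)
open Pool.Agent.U514.TG

variable {F V : Type} [Field F]

theorem place_sum (p : Par F V) (f : Fin p.nX → Fin p.nX → F) (n : ℕ) (hn : nnz f ≤ n)
    (φ : Fin p.nX × Fin p.nX → MvPolynomial V F) :
    ∑ e ∈ range n, ((p.place f e).elim 0 fun q => MvPolynomial.C (f q.1 q.2) * φ q) =
      ∑ q : Fin p.nX × Fin p.nX, MvPolynomial.C (f q.1 q.2) * φ q := by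
  classical
  set S : Finset (Fin p.nX × Fin p.nX) := univ.filter fun q : Fin p.nX × Fin p.nX => f q.1 q.2 ≠ 0
    with hS
  have hcard : S.card ≤ n := by
    refine le_trans (le_of_eq ?_) hn
    unfold nnz
    rw [hS]
  have h1 : ∑ q : Fin p.nX × Fin p.nX, MvPolynomial.C (f q.1 q.2) * φ q =
      ∑ q ∈ S, MvPolynomial.C (f q.1 q.2) * φ q := by
    rw [hS, Finset.sum_filter]
    refine Finset.sum_congr rfl fun q _ => ?_
    split_ifs with h
    · rfl
    · rw [not_not] at h
      rw [h, map_zero, zero_mul]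
  have hplace : ∀ e : ℕ, p.place f e =
      if h : e < S.card then some (S.equivFin.symm ⟨e, h⟩).1 else none := by
    intro e
    unfold Par.place
    congr!
  have h2 : ∑ e ∈ range n, ((p.place f e).elim 0 fun q => MvPolynomial.C (f q.1 q.2) * φ q) =
      ∑ e ∈ range S.card, ((p.place f e).elim 0 fun q => MvPolynomial.C (f q.1 q.2) * φ q) := by
    symm
    apply Finset.sum_subset (Finset.range_mono hcard)
    intro e _ he
    rw [Finset.mem_range] at he
    rw [hplace, dif_neg he]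
    rfl
  rw [h1, h2, Finset.sum_range]
  have h3 : ∀ i : Fin S.card, ((p.place f i).elim 0 fun q => MvPolynomial.C (f q.1 q.2) * φ q) =
      MvPolynomial.C (f (S.equivFin.symm i).1.1 (S.equivFin.symm i).1.2) *
        φ (S.equivFin.symm i).1 := by
    intro i
    rw [hplace, dif_pos i.2]
    rfl
  rw [Finset.sum_congr rfl fun i _ => h3 i]
  rw [← Finset.sum_coe_sort S fun q => MvPolynomial.C (f q.1 q.2) * φ q]
  exact Equiv.sum_comp S.equivFin.symm
    (fun q : S => MvPolynomial.C (f q.1.1 q.1.2) * φ q.1)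

theorem FL_eq (p : Par F V) (hp : p.Good) (τ : Fin p.nT) (i j : ℕ) :
    p.FL τ i j = ∑ q : Fin p.nX × Fin p.nX,
      MvPolynomial.C (p.a τ q.1 q.2) * ent (p.A q.1 i q.2 j) := by
  rw [← place_sum p (p.a τ) (p.t τ ^ 2) (hp.nnz_a τ) (fun q => ent (p.A q.1 i q.2 j))]
  unfold Par.FL Par.SL
  refine Finset.sum_congr rfl fun e _ => ?_
  unfold Par.coA
  cases p.place (p.a τ) e with
  | none => simp
  | some q => rfl

theorem FR_eq (p : Par F V) (hp : p.Good) (τ : Fin p.nT) (k j : ℕ) :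
    p.FR τ k j = ∑ q : Fin p.nX × Fin p.nX,
      MvPolynomial.C (p.b τ q.1 q.2) * ent (p.B q.1 j q.2 k) := by
  rw [← place_sum p (p.b τ) (p.t τ ^ 2) (hp.nnz_b τ) (fun q => ent (p.B q.1 j q.2 k))]
  unfold Par.FR Par.SR
  refine Finset.sum_congr rfl fun e _ => ?_
  unfold Par.coB
  cases p.place (p.b τ) e with
  | none => simp
  | some q => rfl

lemma key {X T : Type} [Fintype X] [DecidableEq X] [Fintype T]
    (a b c : T → X → X → F) (h : IsAlg a b c) (A B : X → X → MvPolynomial V F) (x z : X) :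
    ∑ τ, MvPolynomial.C (c τ x z) *
      ((∑ q : X × X, MvPolynomial.C (a τ q.1 q.2) * A q.1 q.2) *
        (∑ q : X × X, MvPolynomial.C (b τ q.1 q.2) * B q.1 q.2)) = ∑ y, A x y * B y z := by
  have h1 : ∀ τ, MvPolynomial.C (c τ x z) *
      ((∑ q : X × X, MvPolynomial.C (a τ q.1 q.2) * A q.1 q.2) *
        (∑ q : X × X, MvPolynomial.C (b τ q.1 q.2) * B q.1 q.2))
      = ∑ q : X × X, ∑ q' : X × X, MvPolynomial.C (c τ x z * a τ q.1 q.2 * b τ q'.1 q'.2) *
        (A q.1 q.2 * B q'.1 q'.2) := by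
    intro τ
    rw [Finset.sum_mul_sum, Finset.mul_sum]
    refine Finset.sum_congr rfl fun q _ => ?_
    rw [Finset.mul_sum]
    refine Finset.sum_congr rfl fun q' _ => ?_
    simp only [MvPolynomial.C_mul]
    ring
  simp_rw [h1]
  rw [Finset.sum_comm]
  have h2 : ∀ q : X × X, ∑ τ, ∑ q' : X × X,
      MvPolynomial.C (c τ x z * a τ q.1 q.2 * b τ q'.1 q'.2) * (A q.1 q.2 * B q'.1 q'.2)
      = ∑ q' : X × X, MvPolynomial.C (if q.1 = x ∧ q.2 = q'.1 ∧ q'.2 = z then (1 : F) else 0) *
        (A q.1 q.2 * B q'.1 q'.2) := by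
    intro q
    rw [Finset.sum_comm]
    refine Finset.sum_congr rfl fun q' _ => ?_
    rw [← Finset.sum_mul, ← map_sum, h x z q.1 q.2 q'.1 q'.2]
  simp_rw [h2]
  rw [Fintype.sum_prod_type, Finset.sum_eq_single x]
  · refine Finset.sum_congr rfl fun y _ => ?_
    rw [Fintype.sum_prod_type, Finset.sum_eq_single y]
    · rw [Finset.sum_eq_single z]
      · simp
      · intro z' _ hz'
        simp [hz']
      · intro hz
        exact absurd (Finset.mem_univ _) hz
    · intro y' _ hy'
      refine Finset.sum_eq_zero fun z' _ => ?_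
      have : ¬ (y = y') := fun e => hy' e.symm
      simp [this]
    · intro hy
      exact absurd (Finset.mem_univ _) hy
  · intro x' _ hx'
    refine Finset.sum_eq_zero fun y _ => Finset.sum_eq_zero fun q' _ => ?_
    simp [hx']
  · intro hx
    exact absurd (Finset.mem_univ _) hx

theorem t_ALG : S_ALG := by
  intro F V _ p hp x z i k
  have h1 : ∀ τ : Fin p.nT, MvPolynomial.C (p.c τ x z) * p.M τ i k p.N
      = ∑ j ∈ range p.N, MvPolynomial.C (p.c τ x z) * (p.FL τ i j * p.FR τ k j) := by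
    intro τ
    unfold Par.M
    rw [Finset.mul_sum]
  simp_rw [h1]
  rw [Finset.sum_comm, Finset.sum_comm (s := (univ : Finset (Fin p.nX)))]
  refine Finset.sum_congr rfl fun j _ => ?_
  simp_rw [FL_eq p hp, FR_eq p hp]
  exact key p.a p.b p.c hp.alg (fun q1 q2 => ent (p.A q1 i q2 j))
    (fun q1 q2 => ent (p.B q1 j q2 k)) x z

end Pool.Agent.U913.TG
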